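import Pool.Agent.TMX.Stmts2

/-!
# Row AC of squad TMX (MP_b61ad0_an)
-/

namespace Pool.Agent.TMX.H57

open Finset
open Pool.Agent.Helper51_Max (I IsMax)
open Pool.Agent.Helper37_EM (var g_le)
open Pool.Agent.TMX

theorem ac : AC := by
  intro reach means varc lastK gapI gainP xr gain1 gain2 N g M hM i₀ p₁ w y z z' r p₃ geo hMz hp₁y hz'p₃
    hp₃N hp₃i hi₀N hg0 hp₁w hwp₃ hwmin hwC
  have hyz := geo.yz
  have hzz := geo.zz
  have hyN : y ≤ N := by omega
  have hzN : z ≤ N := by omega
  have hz'N : z' ≤ N := by omega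
  have hu0 : 0 ≤ g w := hM.nonneg w
  have huy : g w ≤ M y := le_trans (hwmin y (by omega) (by omega)) (g_le hM hyN)
  have huz' : g w ≤ M z' := le_trans (hwmin z' (by omega) (by omega)) (g_le hM hz'N)
  have huz : g w ≤ M z := le_trans (hwmin z (by omega) (by omega)) (g_le hM hzN)
  obtain ⟨α, hα, hαmin⟩ := Finset.exists_min_image (Icc 0 p₁) g ⟨0, by simp⟩
  have hα' : α ≤ p₁ := (Finset.mem_Icc.mp hα).2
  have hαm : ∀ i, i ≤ p₁ → g α ≤ g i := fun i hi => hαmin i (Finset.mem_Icc.mpr ⟨Nat.zero_le i, hi⟩)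
  have hvar := (varc N g).1 α p₁ w p₃ i₀ hα' hp₁w hwp₃ hp₃i hi₀N
  rw [hg0] at hvar
  have hgain : M z + g w ≤ M y + M z' := gainP gapI N g M hM y z z' r (g w) geo hwC huy huz'
  have hS1 := (means N g M hM).1 N le_rfl
  have hS2 := (means N g M hM).2.1 p₁ p₃ (by omega) hp₃N
  have hn : (0 : ℝ) ≤ (N : ℝ) := Nat.cast_nonneg N
  -- the key inequality
  have key : 2 * (g p₁ - g w + g p₃) - g α ≤
      ((N : ℝ) + 1) * (2 * (M y + M z' - M z - g w)) + ((N : ℝ) + 1) * (M 0 - g α)
        + ((N : ℝ) + 1) * M N := by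
    rcases le_or_gt (g α) (g w) with hau | hua
    · have h3 := (reach N g M hM).2.2.1 0 p₁ p₃ (g α) (Nat.zero_le _) (by omega) hp₃N (by
        intro i hi
        rcases le_total i p₁ with h | h
        · exact hαm i h
        · exact le_trans hau (hwmin i h hi))
      have h0 : 0 ≤ ((N : ℝ) + 1) * (2 * (M y + M z' - M z - g w)) := by
        apply mul_nonneg (by linarith)
        linarith
      linarith
    · have hall : ∀ i, i ≤ p₃ → g w ≤ g i := by
        intro i hi
        rcases le_total i p₁ with h | h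
        · exact le_trans hua.le (hαm i h)
        · exact hwmin i h hi
      have h2 := (reach N g M hM).2.1 0 p₁ (g α) (Nat.zero_le _) (by omega) hαm
      have h4 : g p₃ - 2 * g w ≤ 2 * ((N : ℝ) + 1) * (M y + M z' - M z - g w) := by
        rcases Nat.lt_or_ge (z + r) p₃ with h | h
        · have := gain2 N g M hM y z z' r (g w) p₃ geo h hp₃N hall
          linarith
        · have hx := xr lastK N g M hM y z z' r geo hMz (g w) p₃ hu0 huz hz'p₃ h hall hwC
          have hg := gain1 gainP gapI N g M hM y z z' r (g w) geo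
            (fun i hi => hall i (by omega)) hwC huy huz'
          linarith
      linarith
  have hNv : (N : ℝ) * (2 * (g p₁ - g w + g p₃) - g α) ≤ N * var g 0 N := by
    apply mul_le_mul_of_nonneg_left _ hn
    linarith
  nlinarith [key, hNv]

end Pool.Agent.TMX.H57
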