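import Pool.Agent.TMX.Stmts3

/-!
# Row GBad of squad TMX (MP_b61ad0_an)
-/

namespace Pool.Agent.TMX.H57

open Finset
open Pool.Agent.Helper51_Max (I IsMax)
open Pool.Agent.Helper37_EM (var g_le)
open Pool.Agent.TMX

theorem gBad : GBad := by
  intro gapI gainP gain0 lastK xr2 gain1 gain3 N g M hM p p' y z z' r geo hpy hz'p' hp'N hMz hQ hC
  have hyz := geo.yz
  have hzz := geo.zz
  have hyN : y ≤ N := by omega
  have hzN : z ≤ N := by omega
  have hz'N : z' ≤ N := by omega
  -- `u ≤ g` on the gap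
  have hbase : ∀ u : ℝ, (∀ i, p ≤ i → i ≤ p' → u ≤ g i) →
      u ≤ M y ∧ u ≤ M z' ∧ u ≤ M z ∧ (∀ i, 2 * z' ≤ i + z + r → i + z ≤ 2 * y + r → u ≤ g i) := by
    intro u hu
    refine ⟨le_trans (hu y hpy (by omega)) (g_le hM hyN),
      le_trans (hu z' (by omega) hz'p') (g_le hM hz'N),
      le_trans (hu z (by omega) (by omega)) (g_le hM hzN), ?_⟩
    intro i h1 h2
    obtain ⟨v, hv1, hv2, hv3⟩ := hC i h1 h2
    exact le_trans (hu v hv1 hv2) hv3
  constructor
  · intro u hu
    obtain ⟨h1, h2, _, h4⟩ := hbase u hu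
    have := gainP gapI N g M hM y z z' r u geo h4 h1 h2
    rw [hQ]
    linarith
  · intro u q hu0 hp'q hqN hu
    obtain ⟨h1, h2, h3, h4⟩ := hbase u (fun i _ hi => hu i (by omega))
    rw [hQ]
    rcases Nat.lt_or_ge (z + r) q with h | h
    · have h5 := gain3 N g M hM y z z' r u p' q geo h hqN hu hz'p' hp'q
      linarith
    · have h5 := xr2 lastK N g M hM y z z' r geo hMz u p' q hu0 h3 hz'p' hp'q h hu h4
      have h6 := gain1 gainP gapI N g M hM y z z' r u geo (fun i hi => hu i (by omega)) h4 h1 h2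
      linarith
  · rw [hQ]
    exact gain0 N g M hM y z z' r geo

end Pool.Agent.TMX.H57
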